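import Mathlib

/-!
# Integrals of groups: two general facts

* `comm_le` : if `G` is isomorphic to the derived subgroup of some group `H` and the elements of
  `G'` are powers of `c` modulo `G''`, then `G` centralises `c` modulo `G''`;
* `wr_commutator` : the derived subgroup of `T ≀ C₂` is `{(y,z) : y z ∈ T'}`.
-/

open Subgroup
open scoped commutatorElement

namespace Q288.Itg

universe u

/-- In a group where all conjugates of `c` are powers of `c`, commutators centralise `c`. -/
theorem commutator_le_centralizer {Q : Type*} [Group Q] (c : Q)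
    (hc : ∀ h : Q, h * c * h⁻¹ ∈ zpowers c) : commutator Q ≤ centralizer {c} := by
  have key : ∀ g h : Q, (g * h) * c * (g * h)⁻¹ = (h * g) * c * (h * g)⁻¹ := by
    intro g h
    obtain ⟨k, hk⟩ := mem_zpowers_iff.1 (hc g)
    obtain ⟨l, hl⟩ := mem_zpowers_iff.1 (hc h)
    have e1 : (g * h) * c * (g * h)⁻¹ = (c ^ k) ^ l := by
      rw [hk]
      have : (g * c * g⁻¹) ^ l = g * c ^ l * g⁻¹ := by rw [conj_zpow]
      rw [this, hl]; group
    have e2 : (h * g) * c * (h * g)⁻¹ = (c ^ l) ^ k := by
      rw [hl]
      have : (h * c * h⁻¹) ^ k = h * c ^ k * h⁻¹ := by rw [conj_zpow]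
      rw [this, hk]; group
    rw [e1, e2, ← zpow_mul, ← zpow_mul, mul_comm]
  rw [_root_.commutator_def, commutator_le]
  intro g _ h _
  rw [mem_centralizer_singleton_iff]
  have h0 := key g⁻¹ h⁻¹
  have h1 : (g * h) * ((h⁻¹ * g⁻¹) * c * (h⁻¹ * g⁻¹)⁻¹) * (g * h)⁻¹ = c := by group
  rw [← h0] at h1
  rw [commutatorElement_def]
  calc g * h * g⁻¹ * h⁻¹ * c
      = ((g * h) * ((g⁻¹ * h⁻¹) * c * (g⁻¹ * h⁻¹)⁻¹) * (g * h)⁻¹) * (g * h * g⁻¹ * h⁻¹) := by group
    _ = c * (g * h * g⁻¹ * h⁻¹) := by rw [h1]

/-- If `G` is (isomorphic to) a derived subgroup and `G' = ⟨c⟩ G''`, then `G` centralises `c`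
modulo `G''`. -/
theorem comm_mem {G : Type*} [Group G] {H : Type u} [Group H] (e : commutator H ≃* G) (c t : G)
    (hc : c ∈ commutator G)
    (hgen : ∀ x ∈ commutator G, ∃ k : ℤ, x * c ^ (-k) ∈ ⁅commutator G, commutator G⁆) :
    ⁅t, c⁆ ∈ ⁅commutator G, commutator G⁆ := by
  set ψ : G →* H := (commutator H).subtype.comp e.symm.toMonoidHom with hψ
  have hinj : Function.Injective ψ :=
    (Subtype.val_injective).comp e.symm.injective
  have hrange : (⊤ : Subgroup G).map ψ = commutator H := by
    ext x; constructor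
    · rintro ⟨y, _, rfl⟩; exact (e.symm y).2
    · intro hx; exact ⟨e ⟨x, hx⟩, trivial, by simp [hψ]⟩
  have hD2 : (commutator G).map ψ = ⁅commutator H, commutator H⁆ := by
    rw [_root_.commutator_def G, map_commutator, hrange]
  have hD3 : (⁅commutator G, commutator G⁆).map ψ
      = ⁅⁅commutator H, commutator H⁆, ⁅commutator H, commutator H⁆⁆ := by
    rw [map_commutator, hD2]
  set D2 := ⁅commutator H, commutator H⁆ with hD2d
  set D3 := ⁅D2, D2⁆ with hD3d
  have n2 : D2.Normal := commutator_normal _ _
  have n3 : D3.Normal := commutator_normal _ _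
  -- all conjugates of `ψ c` in `H` are powers of it modulo `D3`
  have hconj : ∀ h : H ⧸ D3, h * (QuotientGroup.mk' D3 (ψ c)) * h⁻¹
      ∈ zpowers (QuotientGroup.mk' D3 (ψ c)) := by
    intro h
    obtain ⟨h, rfl⟩ := QuotientGroup.mk'_surjective D3 h
    have h1 : h * ψ c * h⁻¹ ∈ D2 := n2.conj_mem _ (by rw [← hD2]; exact mem_map_of_mem _ hc) _
    rw [← hD2] at h1
    obtain ⟨x, hx, hxe⟩ := h1
    obtain ⟨k, hk⟩ := hgen x hx
    refine mem_zpowers_iff.2 ⟨k, ?_⟩
    rw [← map_inv, ← map_mul, ← map_mul, ← map_zpow, ← hxe]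
    refine ((QuotientGroup.mk'_eq_mk' D3).2 ?_)
    refine ⟨ψ (x * c ^ (-k)) |> fun z => (ψ (c ^ k))⁻¹ * z * ψ (c ^ k), ?_, ?_⟩
    · have : ψ (x * c ^ (-k)) ∈ D3 := by rw [← hD3]; exact mem_map_of_mem _ hk
      simpa using n3.conj_mem _ this (ψ (c ^ k))⁻¹
    · simp only [map_mul, map_zpow]; group
  have h2 := commutator_le_centralizer _ hconj
  have ht : QuotientGroup.mk' D3 (ψ t) ∈ commutator (H ⧸ D3) := by
    have : ψ t ∈ commutator H := by rw [← hrange]; exact mem_map_of_mem _ trivial
    have h3 : (commutator H).map (QuotientGroup.mk' D3) ≤ commutator (H ⧸ D3) := by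
      rw [_root_.commutator_def, map_commutator]; exact commutator_mono le_top le_top
    exact h3 (mem_map_of_mem _ this)
  have h4 := mem_centralizer_singleton_iff.1 (h2 ht)
  have h5 : QuotientGroup.mk' D3 (ψ ⁅t, c⁆) = 1 := by
    rw [map_commutatorElement, map_commutatorElement, commutatorElement_eq_one_iff_mul_comm]
    exact h4
  have h6 : ψ ⁅t, c⁆ ∈ D3 := by
    rwa [← MonoidHom.mem_ker, QuotientGroup.ker_mk'] at h5
  rw [← hD3] at h6
  obtain ⟨y, hy, hye⟩ := h6
  rw [← hinj hye]; exact hy

theorem mul_comm_of_mem_zpowers_sub {Q : Type*} [Group Q] {w : Q} (a b : zpowers w) :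
    a * b = b * a := by
  obtain ⟨a, ha⟩ := a
  obtain ⟨b, hb⟩ := b
  obtain ⟨k, rfl⟩ := mem_zpowers_iff.1 ha
  obtain ⟨l, rfl⟩ := mem_zpowers_iff.1 hb
  ext
  simp only [coe_mul]
  rw [← zpow_add, ← zpow_add, add_comm]

/-- swapping the coordinates of `T × T` -/
def swap (T : Type*) [Group T] : MulAut (T × T) := MulEquiv.prodComm

/-- the wreath product `T ≀ C₂` -/
abbrev Wr (T : Type*) [Group T] : Type _ :=
  (T × T) ⋊[(zpowers (swap T)).subtype] (zpowers (swap T))

/-- `{(y,z) : y z ∈ T'}` -/
def Dg (T : Type*) [Group T] : Subgroup (T × T) :=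
  (MonoidHom.mk' (fun p : T × T => Abelianization.of p.1 * Abelianization.of p.2)
    (by intro a b; simp [mul_mul_mul_comm])).ker

theorem mem_Dg {T : Type*} [Group T] (p : T × T) : p ∈ Dg T ↔ p.1 * p.2 ∈ commutator T := by
  rw [← Abelianization.ker_of T, Dg, MonoidHom.mem_ker, MonoidHom.mem_ker]; simp

theorem wr_commutator (T : Type*) [Group T] :
    commutator (Wr T) = (Dg T).map (SemidirectProduct.inl) := by
  apply le_antisymm
  · -- `≤`
    have hcomp : ∀ g : zpowers (swap T),
        (MonoidHom.mk' (fun p : T × T => Abelianization.of p.1 * Abelianization.of p.2)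
          (by intro a b; simp [mul_mul_mul_comm])).comp
          ((((zpowers (swap T)).subtype) g).toMonoidHom)
        = (MulAut.conj ((1 : zpowers (swap T) →* Abelianization T) g)).toMonoidHom.comp
          (MonoidHom.mk' (fun p : T × T => Abelianization.of p.1 * Abelianization.of p.2)
          (by intro a b; simp [mul_mul_mul_comm])) := by
      rintro ⟨g, hg⟩
      ext p
      simp only [MonoidHom.one_apply, map_one]
      simp only [MonoidHom.comp_apply, MulEquiv.toMonoidHom_eq_coe, MonoidHom.coe_coe,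
        MonoidHom.mk'_apply, MulAut.one_apply, subtype_apply]
      obtain ⟨k, rfl⟩ := mem_zpowers_iff.1 hg
      clear hg
      have h2 : ∀ q : T × T, (swap T) q = (q.2, q.1) := fun q => rfl
      have h3 : ∀ (w : MulAut (T × T)), (∀ q : T × T, Abelianization.of (w q).1
          * Abelianization.of (w q).2 = Abelianization.of q.1 * Abelianization.of q.2) →
          ∀ k : ℕ, ∀ q : T × T, Abelianization.of ((w ^ k) q).1
          * Abelianization.of ((w ^ k) q).2 = Abelianization.of q.1 * Abelianization.of q.2 := by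
        intro w hw k
        induction k with
        | zero => intro q; simp
        | succ k ih => intro q; rw [pow_succ, MulAut.mul_apply, ih, hw]
      rcases k with k | k
      · exact h3 _ (fun q => by rw [h2]; simp [mul_comm]) k p
      · have h4 : (swap T)⁻¹ = swap T := by ext q <;> rfl
        rw [zpow_negSucc, ← inv_pow, h4]
        exact h3 _ (fun q => by rw [h2]; simp [mul_comm]) (k + 1) p
    set L : Wr T →* Abelianization T := SemidirectProduct.lift _ _ hcomp with hL
    intro x hx
    have h1 : L x = 1 := by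
      have : commutator (Wr T) ≤ L.ker := Abelianization.commutator_subset_ker L
      exact this hx
    have h2 : (SemidirectProduct.rightHom x : zpowers (swap T)) = 1 := by
      have h0 : commutator (Wr T) ≤ (SemidirectProduct.rightHom : Wr T →* zpowers (swap T)).ker := by
        rw [_root_.commutator_def, commutator_le]
        intro a _ b _
        rw [MonoidHom.mem_ker, map_commutatorElement, commutatorElement_eq_one_iff_mul_comm]
        exact mul_comm_of_mem_zpowers_sub _ _
      exact h0 hx
    refine ⟨x.left, ?_, ?_⟩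
    · have h3 : x = SemidirectProduct.inl x.left := by
        ext1
        · rfl
        · exact h2
      rw [h3, hL, SemidirectProduct.lift_inl] at h1
      exact h1
    · ext1
      · rfl
      · exact h2.symm
  · -- `≥`
    rintro _ ⟨⟨y, z⟩, hyz, rfl⟩
    have hyz' : y * z ∈ commutator T := (mem_Dg _).1 hyz
    have e1 : (y, z) = (y * z, 1) * (z⁻¹, z) := by ext <;> simp
    rw [e1, map_mul]
    refine mul_mem ?_ ?_
    · have h3 : (commutator T).map
          ((SemidirectProduct.inl : T × T →* Wr T).comp (MonoidHom.inl T T)) ≤ commutator (Wr T) := by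
        rw [_root_.commutator_def, map_commutator]; exact commutator_mono le_top le_top
      exact h3 ⟨y * z, hyz', rfl⟩
    · have h5 : (SemidirectProduct.inl (z⁻¹, z) : Wr T)
          = ⁅(SemidirectProduct.inl (z⁻¹, 1) : Wr T),
            SemidirectProduct.inr ⟨swap T, mem_zpowers _⟩⁆ := by
        rw [commutatorElement_def]
        have h6 := SemidirectProduct.inl_aut (φ := (zpowers (swap T)).subtype)
          (⟨swap T, mem_zpowers _⟩ : zpowers (swap T)) ((z⁻¹, 1) : T × T)⁻¹
        rw [mul_assoc, mul_assoc, ← mul_assoc (SemidirectProduct.inr _), ← map_inv, ← map_inv, ← h6,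
          ← map_mul]
        congr 1
        have h7 : ((zpowers (swap T)).subtype (⟨swap T, mem_zpowers _⟩ : zpowers (swap T)))
          ((z⁻¹, 1) : T × T)⁻¹ = (1, z) := by
          change swap T ((z⁻¹, 1) : T × T)⁻¹ = (1, z)
          simp [swap]
        rw [h7]
        ext <;> simp
      rw [h5]
      exact commutator_mem_commutator trivial trivial

end Q288.Itg
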