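import Mathlib
import Pool.Agent.Q288.Itg.Wr

/-!
# Eventually constant sequences in a group `A` with limit in a subgroup `T`
-/

open Subgroup Filter
open scoped commutatorElement

namespace Q288.Itg

variable {A : Type} [Group A]

/-- sequences in `A` that are eventually constant with value in `T` -/
def ev (T : Subgroup A) : Subgroup (ℕ → A) where
  carrier := {f | ∃ s ∈ T, ∀ᶠ n in atTop, f n = s}
  one_mem' := ⟨1, one_mem T, Eventually.of_forall fun _ => rfl⟩
  mul_mem' := by
    rintro f g ⟨s, hs, hf⟩ ⟨t, ht, hg⟩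
    exact ⟨s * t, mul_mem hs ht, by filter_upwards [hf, hg] with n h1 h2; simp [h1, h2]⟩
  inv_mem' := by
    rintro f ⟨s, hs, hf⟩
    exact ⟨s⁻¹, inv_mem hs, by filter_upwards [hf] with n h1; simp [h1]⟩

variable {T : Subgroup A}

/-- the limit of an element of `ev T` -/
noncomputable def limv (f : ev T) : A := f.2.choose

theorem limv_mem (f : ev T) : limv f ∈ T := f.2.choose_spec.1

theorem limv_spec (f : ev T) : ∀ᶠ n in atTop, (f : ℕ → A) n = limv f := f.2.choose_spec.2

theorem limv_unique (f : ev T) {s : A} (hs : ∀ᶠ n in atTop, (f : ℕ → A) n = s) : limv f = s := by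
  obtain ⟨n, h1, h2⟩ := ((limv_spec f).and hs).exists
  rw [← h1, h2]

/-- the limit as a homomorphism onto `T` -/
noncomputable def lim : ev T →* T where
  toFun f := ⟨limv f, limv_mem f⟩
  map_one' := by
    ext; exact limv_unique _ (Eventually.of_forall fun _ => rfl)
  map_mul' := by
    intro f g; ext
    refine limv_unique _ ?_
    filter_upwards [limv_spec f, limv_spec g] with n h1 h2
    simp [h1, h2]

theorem lim_coe (f : ev T) : ((lim f : T) : A) = limv f := rfl

/-- constant sequences -/
def cst (s : T) : ev T := ⟨fun _ => s, s, s.2, Eventually.of_forall fun _ => rfl⟩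

theorem lim_cst (s : T) : lim (cst s) = s := by
  ext; exact limv_unique _ (Eventually.of_forall fun _ => rfl)

/-- the `n`-th factor -/
def sgl (T : Subgroup A) (n : ℕ) : A →* ev T where
  toFun a := ⟨Pi.mulSingle n a, 1, one_mem T, by
    filter_upwards [eventually_gt_atTop n] with m hm
    exact Pi.mulSingle_eq_of_ne (by omega) _⟩
  map_one' := by ext; simp
  map_mul' := by intro a b; ext1; exact Pi.mulSingle_mul _ _ _

/-- elements of `ev T` which are trivial from `n` on lie in every subgroup containing the factors -/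
theorem mem_of_sgl (L : Subgroup (ev T)) (hL : ∀ n a, sgl T n a ∈ L) :
    ∀ (n : ℕ) (f : ev T), (∀ m, n ≤ m → (f : ℕ → A) m = 1) → f ∈ L := by
  intro n
  induction n with
  | zero =>
    intro f hf
    have : f = 1 := by ext m; exact hf m (Nat.zero_le _)
    rw [this]; exact one_mem L
  | succ n ih =>
    intro f hf
    have h1 : sgl T n ((f : ℕ → A) n)⁻¹ * f ∈ L := by
      refine ih _ ?_
      intro m hm
      rcases Nat.eq_or_lt_of_le hm with h | h
      · subst h
        change (Pi.mulSingle n ((f : ℕ → A) n)⁻¹ : ℕ → A) n * (f : ℕ → A) n = 1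
        simp
      · change (Pi.mulSingle n ((f : ℕ → A) n)⁻¹ : ℕ → A) m * (f : ℕ → A) m = 1
        rw [Pi.mulSingle_eq_of_ne (by omega), hf m h, one_mul]
    have h2 := mul_mem (inv_mem (hL n ((f : ℕ → A) n)⁻¹)) h1
    simpa using h2

/-- If `A` is perfect, the kernel of the limit map lies in `G''`, `G = ev T`. -/
theorem ker_le (hA : commutator A = ⊤) (f : ev T) (hf : lim f = 1) :
    f ∈ ⁅commutator (ev T), commutator (ev T)⁆ := by
  have h1 : ∀ n a, sgl T n a ∈ commutator (ev T) := by
    intro n a
    have : (commutator A).map (sgl T n) ≤ commutator (ev T) := by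
      rw [_root_.commutator_def, map_commutator]; exact commutator_mono le_top le_top
    exact this (mem_map_of_mem _ (by rw [hA]; trivial))
  have h2 : ∀ n a, sgl T n a ∈ ⁅commutator (ev T), commutator (ev T)⁆ := by
    intro n a
    have h3 : (⁅commutator A, commutator A⁆).map (sgl T n)
        ≤ ⁅commutator (ev T), commutator (ev T)⁆ := by
      rw [map_commutator]
      have : (commutator A).map (sgl T n) ≤ commutator (ev T) := by
        rintro _ ⟨b, _, rfl⟩; exact h1 n b
      exact commutator_mono this this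
    refine h3 (mem_map_of_mem _ ?_)
    rw [hA, ← _root_.commutator_def, hA]; trivial
  have h4 := limv_spec f
  have h5 : limv f = 1 := by rw [← lim_coe, hf]; rfl
  rw [h5] at h4
  obtain ⟨n, hn⟩ := eventually_atTop.1 h4
  exact mem_of_sgl _ h2 n f hn

/-- **`ev T` has no integral.** -/
theorem no_integral.{u} (hA : commutator A = ⊤) (c t : T) (hc : ⁅t, c⁆ = c) (hc1 : c ≠ 1)
    (hT : commutator T ≤ zpowers c) (H : Type u) [Group H] :
    IsEmpty (commutator H ≃* ev T) := by
  refine ⟨fun e => ?_⟩
  have hcc : c ∈ commutator T := by rw [← hc]; exact commutator_mem_commutator trivial trivial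
  have hT2 : ⁅commutator T, commutator T⁆ = ⊥ := by
    rw [commutator_eq_bot_iff_le_centralizer]
    intro a ha
    rw [mem_centralizer_iff]
    intro b hb
    obtain ⟨k, rfl⟩ := mem_zpowers_iff.1 (hT ha)
    obtain ⟨l, rfl⟩ := mem_zpowers_iff.1 (hT hb)
    rw [← zpow_add, ← zpow_add, add_comm]
  set κ : ev T := ⁅cst t, cst c⁆ with hκ
  have hκl : lim κ = c := by
    rw [hκ, map_commutatorElement, lim_cst, lim_cst, hc]
  have hlimmap : (commutator (ev T)).map lim ≤ commutator T := by
    rw [_root_.commutator_def, map_commutator]; exact commutator_mono le_top le_top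
  have h1 : ⁅cst t, κ⁆ ∈ ⁅commutator (ev T), commutator (ev T)⁆ := by
    refine comm_mem e κ (cst t) (commutator_mem_commutator trivial trivial) ?_
    intro x hx
    have h2 : lim x ∈ commutator T := hlimmap (mem_map_of_mem _ hx)
    obtain ⟨k, hk⟩ := mem_zpowers_iff.1 (hT h2)
    refine ⟨k, ker_le hA _ ?_⟩
    rw [map_mul, map_zpow, hκl, ← hk, ← zpow_add, add_neg_cancel, zpow_zero]
  have h3 : lim ⁅cst t, κ⁆ ∈ ⁅commutator T, commutator T⁆ := by
    have : (⁅commutator (ev T), commutator (ev T)⁆).map lim ≤ ⁅commutator T, commutator T⁆ := by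
      rw [map_commutator]; exact commutator_mono hlimmap hlimmap
    exact this (mem_map_of_mem _ h1)
  rw [hT2, Subgroup.mem_bot, map_commutatorElement, lim_cst, hκl, hc] at h3
  exact hc1 h3

/-! ### finite pieces -/

/-- sequences constant from `n` on -/
def st (T : Subgroup A) (n : ℕ) : Subgroup (ev T) where
  carrier := {f | ∀ m, n ≤ m → (f : ℕ → A) m = limv f}
  one_mem' := by
    intro m _
    exact (limv_unique (1 : ev T) (Eventually.of_forall fun _ => rfl)).symm
  mul_mem' := by
    intro f g hf hg m hm
    have h : limv (f * g) = limv f * limv g := congrArg Subtype.val (map_mul (lim (T := T)) f g)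
    rw [h, ← hf m hm, ← hg m hm]; rfl
  inv_mem' := by
    intro f hf m hm
    have h : limv f⁻¹ = (limv f)⁻¹ := congrArg Subtype.val (map_inv (lim (T := T)) f)
    rw [h, ← hf m hm]; rfl

theorem st_mono {n m : ℕ} (h : n ≤ m) : st T n ≤ st T m := fun _ hf k hk => hf k (h.trans hk)

theorem exists_st (f : ev T) : ∃ n, f ∈ st T n := by
  obtain ⟨n, hn⟩ := eventually_atTop.1 (limv_spec f)
  exact ⟨n, hn⟩

theorem exists_st_finset (S : Finset (ev T)) : ∃ n, ∀ f ∈ S, f ∈ st T n := by
  classical
  induction S using Finset.induction_on with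
  | empty => exact ⟨0, by simp⟩
  | insert a S _ ih =>
    obtain ⟨n, hn⟩ := ih
    obtain ⟨m, hm⟩ := exists_st a
    refine ⟨max n m, ?_⟩
    intro f hf
    rcases Finset.mem_insert.1 hf with rfl | hf
    · exact st_mono (le_max_right _ _) hm
    · exact st_mono (le_max_left _ _) (hn f hf)

instance st_finite [Finite A] (n : ℕ) : Finite (st T n) := by
  have : Function.Injective (fun f : st T n => ((fun i : Fin n => ((f : ev T) : ℕ → A) i),
      limv (f : ev T))) := by
    intro f g h
    simp only [Prod.mk.injEq] at h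
    ext m
    by_cases hm : m < n
    · exact congrFun h.1 ⟨m, hm⟩
    · rw [f.2 m (by omega), g.2 m (by omega), h.2]
  exact Finite.of_injective _ this

theorem locallyFinite [Finite A] (K : Subgroup (ev T)) (hK : K.FG) : Finite K := by
  obtain ⟨S, rfl⟩ := hK
  obtain ⟨n, hn⟩ := exists_st_finset S
  have h : closure (S : Set (ev T)) ≤ st T n := (closure_le _).2 hn
  exact Finite.of_injective _ (inclusion_injective h)

/-! ### the integrable pieces -/

/-- `ev T` restricted: constant from `n+1` on, and at place `n` an element `y` of `T` with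
`y · lim ∈ T'` -/
def Kn (T : Subgroup A) (n : ℕ) : Subgroup (ev T) where
  carrier := {f | f ∈ st T (n + 1) ∧ ∃ h : (f : ℕ → A) n ∈ T,
    ((⟨(f : ℕ → A) n, h⟩ : T), lim f) ∈ Dg T}
  one_mem' := by
    refine ⟨one_mem _, one_mem T, ?_⟩
    have : (((⟨((1 : ev T) : ℕ → A) n, one_mem T⟩ : T)), lim (1 : ev T)) = (1 : T × T) := by
      rw [map_one]; rfl
    rw [this]; exact one_mem _
  mul_mem' := by
    rintro f g ⟨hf, h1, h2⟩ ⟨hg, h3, h4⟩
    refine ⟨mul_mem hf hg, mul_mem h1 h3, ?_⟩
    have : (((⟨((f * g : ev T) : ℕ → A) n, mul_mem h1 h3⟩ : T)), lim (f * g : ev T))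
      = ((⟨(f : ℕ → A) n, h1⟩ : T), lim f) * ((⟨(g : ℕ → A) n, h3⟩ : T), lim g) := by
      rw [map_mul]; rfl
    rw [this]; exact mul_mem h2 h4
  inv_mem' := by
    rintro f ⟨hf, h1, h2⟩
    refine ⟨inv_mem hf, inv_mem h1, ?_⟩
    have : (((⟨((f⁻¹ : ev T) : ℕ → A) n, inv_mem h1⟩ : T)), lim (f⁻¹ : ev T))
      = ((⟨(f : ℕ → A) n, h1⟩ : T), lim f)⁻¹ := by
      rw [map_inv]; rfl
    rw [this]; exact inv_mem h2

theorem st_le_Kn (hT : ∀ s : T, s * s ∈ commutator T) (n : ℕ) : st T n ≤ Kn T n := by
  intro f hf
  have h1 : (f : ℕ → A) n = limv f := hf n le_rfl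
  refine ⟨st_mono (Nat.le_succ n) hf, by rw [h1]; exact limv_mem f, ?_⟩
  rw [mem_Dg]
  have h2 : (⟨(f : ℕ → A) n, by rw [h1]; exact limv_mem f⟩ : T) = lim f := by
    ext; exact h1
  simp only [h2]
  exact hT _

/-- `Kn ≅ Aⁿ × Dg T` -/
noncomputable def KnEquiv (T : Subgroup A) (n : ℕ) : Kn T n ≃* (Fin n → A) × Dg T :=
  MulEquiv.ofBijective
    ({ toFun := fun f => (fun i => ((f : ev T) : ℕ → A) i,
        ⟨((⟨((f : ev T) : ℕ → A) n, f.2.2.1⟩ : T), lim (f : ev T)), f.2.2.2⟩)
       map_one' := by
        ext1
        · rfl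
        · ext1; ext1
          · rfl
          · change lim (1 : ev T) = 1; rw [map_one]
       map_mul' := by
        intro f g
        ext1
        · rfl
        · ext1; ext1
          · rfl
          · change lim ((f : ev T) * (g : ev T)) = _; rw [map_mul]; rfl } :
      Kn T n →* (Fin n → A) × Dg T)
    (by
      constructor
      · intro f g h
        have h1 := congrArg Prod.fst h
        have h2 := congrArg (fun x => (x.2 : T × T)) h
        have h3 : ((f : ev T) : ℕ → A) n = ((g : ev T) : ℕ → A) n :=
          congrArg (fun x : T × T => (x.1 : A)) h2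
        have h4 : limv (f : ev T) = limv (g : ev T) :=
          congrArg (fun x : T × T => (x.2 : A)) h2
        ext m
        rcases lt_trichotomy m n with hm | hm | hm
        · exact congrFun h1 ⟨m, hm⟩
        · rw [hm]; exact h3
        · rw [f.2.1 m hm, g.2.1 m hm, h4]
      · rintro ⟨a, ⟨⟨y, z⟩, hyz⟩⟩
        let F : ℕ → A := fun m => if h : m < n then a ⟨m, h⟩ else if m = n then y else z
        have hF : ∀ m, n < m → F m = z := by
          intro m hm
          simp only [F]
          rw [dif_neg (by omega), if_neg (by omega)]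
        have hFn : F n = y := by simp [F]
        let G : ev T := ⟨F, z, z.2, by
          filter_upwards [eventually_gt_atTop n] with m hm; exact hF m hm⟩
        have hG : limv G = z := limv_unique G (by
          filter_upwards [eventually_gt_atTop n] with m hm; exact hF m hm)
        have hG1 : G ∈ st T (n + 1) := by
          intro m hm
          rw [hG]; exact hF m hm
        have hG2 : (G : ℕ → A) n ∈ T := by
          change F n ∈ T; rw [hFn]; exact y.2
        have hG3 : (⟨(G : ℕ → A) n, hG2⟩ : T) = y := by ext; exact hFn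
        have hG4 : lim G = z := by ext; exact hG
        refine ⟨⟨G, hG1, hG2, by rw [hG3, hG4]; exact hyz⟩, ?_⟩
        ext1
        · funext i
          change F i = a i
          simp [F, i.2]
        · ext1; ext1
          · exact hG3
          · exact hG4)

/-- the integral `Aⁿ × (T ≀ C₂)` of `Kn` -/
abbrev Hn (T : Subgroup A) (n : ℕ) : Type := (Fin n → A) × Wr T

noncomputable def HnEquiv (hA : commutator A = ⊤) (n : ℕ) :
    commutator (Hn T n) ≃* Kn T n := by
  have h1 : commutator (Hn T n) = (⊤ : Subgroup (Fin n → A)).prod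
      ((Dg T).map (SemidirectProduct.inl)) := by
    rw [_root_.commutator_def, ← Subgroup.top_prod_top, commutator_prod_prod,
      ← _root_.commutator_def (Wr T), wr_commutator]
    congr 1
    have h2 : (⊤ : Subgroup (Fin n → A)) = Subgroup.pi Set.univ (fun _ => (⊤ : Subgroup A)) := by
      ext; simp [Subgroup.mem_pi]
    rw [h2, commutator_pi_pi_of_finite]
    simp only [← _root_.commutator_def, hA]
  refine (MulEquiv.subgroupCongr h1).trans ((Subgroup.prodEquiv _ _).trans ?_)
  refine (MulEquiv.prodCongr Subgroup.topEquiv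
    ((Dg T).equivMapOfInjective _ SemidirectProduct.inl_injective).symm).trans (KnEquiv T n).symm

theorem Wr_finite [Finite T] : Finite (Wr T) :=
  Finite.of_equiv _ (SemidirectProduct.equivProd (φ := (zpowers (swap T)).subtype)).symm

end Q288.Itg
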